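import Pool.Agent.Lib.MP_b138e1_al.Final

set_option autoImplicit false

namespace Pool.Agent.Results.MP_b138e1_al.NonSoficExt

open Pool.Agent.Lib.MP_b138e1_al

/-- There is a finitely generated group `G` with a normal subgroup `Z` of order two such that `G / Z` is
residually finite and `G` is not sofic. -/
theorem result : ∃ (G : Type) (_ : Group G) (Z : Subgroup G) (_ : Z.Normal),
    Group.FG G ∧ Nat.card Z = 2 ∧ Group.ResiduallyFinite (G ⧸ Z) ∧ ¬ Sofic G :=
  exists_nonsofic

end Pool.Agent.Results.MP_b138e1_al.NonSoficExt
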