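import Pool.Agent.Lib.MP_b138e1_al.NS.Bridge

set_option autoImplicit false

namespace Pool.Agent.Results.MP_b138e1_al.NonSoficHyperbolic

open Pool.Agent.Lib.MP_b138e1_al

/-- There is a Gromov hyperbolic group that is neither sofic nor residually finite. -/
theorem result : ∃ (G : Type) (_ : Group G),
    GromovHyperbolic G ∧ ¬ Sofic G ∧ ¬ Group.ResiduallyFinite G :=
  Pool.Agent.NS.nonsofic_hyperbolic

end Pool.Agent.Results.MP_b138e1_al.NonSoficHyperbolic
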