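import Pool.Agent.Lib.MP_b138e1_al.Act

set_option autoImplicit false

namespace Pool.Agent.Results.MP_b138e1_al.SoficIffRF

open Pool.Agent.Lib.MP_b138e1_al

/-- For every cone radius `R` there is an expansion constant `lam > 0` such that, for every finite
four-coloured 3-complex whose links are `lam`-expanding and whose vertex links are chamber-transitive
with cones of radius `R`, every extension of its fundamental group by a finite group is sofic if and
only if it is residually finite. -/
theorem result : ∀ R : ℕ, ∃ lam : ℝ, 0 < lam ∧ ∀ (V : Type) [Finite V] (X : Cx V),
    X.LinkMixing lam → X.LinkTransitive → X.Cone R → ∀ (T : X.Tree) (G : Type) [Group G] (p : G →* X.Pi1 T),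
      Function.Surjective p → Finite p.ker → (Sofic G ↔ Group.ResiduallyFinite G) :=
  sofic_iff

end Pool.Agent.Results.MP_b138e1_al.SoficIffRF
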